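import Pool.Agent.H43.BZ.Stm3

/-!
# LFIN: the weighted bound along classical solutions of the Landau equation
-/

set_option autoImplicit false

open MeasureTheory Metric Set Filter Topology
open scoped RealInnerProductSpace ENNReal

namespace Pool.Agent.H190.BZ

open Pool.Agent.H43.BZ

theorem kk_nonneg {d : ℕ} (γ s : ℝ) (v w : E d) : 0 ≤ kk γ s v w := by
  unfold kk
  positivity

theorem P_pos' {d : ℕ} (v : E d) : 0 < P d v := by
  unfold P
  positivity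

theorem P_cont' (d : ℕ) : Continuous (P d : E d → ℝ) := by
  unfold P
  refine Continuous.inv₀ (by fun_prop) fun v => ?_
  positivity

/-- decay of the solution relative to the weight -/
theorem decay_le {d : ℕ} (T : ℝ) (f : ℝ → E d → E d → ℝ)
    (hnn : ∀ t ∈ Ico 0 T, ∀ x v, 0 ≤ f t x v)
    (hdec : ∀ T' ∈ Ico 0 T, ∀ q : ℕ, ∃ C : ℝ, ∀ t ∈ Icc 0 T', ∀ x v, (1 + ‖v‖) ^ q * f t x v ≤ C) :
    ∀ T' ∈ Ico 0 T, ∀ ε > 0, ∃ R : ℝ, ∀ t ∈ Icc 0 T', ∀ x v, R ≤ ‖v‖ → f t x v ≤ ε * P d v := by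
  intro T' hT' ε hε
  obtain ⟨C1, hC1⟩ := hdec T' hT' (8 * (d + 3) + 1)
  refine ⟨|C1| / ε, ?_⟩
  intro t ht x v hv
  have htT : t ∈ Ico 0 T := ⟨ht.1, lt_of_le_of_lt ht.2 hT'.2⟩
  have hf0 := hnn t htT x v
  have h1 := hC1 t ht x v
  have hv0 := norm_nonneg v
  have h2 : |C1| ≤ ε * (1 + ‖v‖) := by
    rw [div_le_iff₀ hε] at hv
    nlinarith
  have h3 : (1 + ‖v‖ ^ 2) ^ (4 * (d + 3)) ≤ (1 + ‖v‖) ^ (8 * (d + 3)) := by
    have : (1 + ‖v‖) ^ (8 * (d + 3)) = ((1 + ‖v‖) ^ 2) ^ (4 * (d + 3)) := by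
      rw [← pow_mul]; ring_nf
    rw [this]
    exact pow_le_pow_left₀ (by positivity) (by nlinarith) _
  have h4 : f t x v * (1 + ‖v‖ ^ 2) ^ (4 * (d + 3)) ≤ ε := by
    have h5 : f t x v * (1 + ‖v‖ ^ 2) ^ (4 * (d + 3)) ≤ f t x v * (1 + ‖v‖) ^ (8 * (d + 3)) :=
      mul_le_mul_of_nonneg_left h3 hf0
    refine h5.trans ?_
    have h6 : (1 + ‖v‖) * (f t x v * (1 + ‖v‖) ^ (8 * (d + 3))) ≤ (1 + ‖v‖) * ε := by
      calc (1 + ‖v‖) * (f t x v * (1 + ‖v‖) ^ (8 * (d + 3)))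
          = (1 + ‖v‖) ^ (8 * (d + 3) + 1) * f t x v := by ring
        _ ≤ C1 := h1
        _ ≤ |C1| := le_abs_self _
        _ ≤ ε * (1 + ‖v‖) := h2
        _ = (1 + ‖v‖) * ε := by ring
    exact le_of_mul_le_mul_left h6 (by positivity)
  unfold P
  rw [← div_eq_mul_inv, le_div_iff₀ (by positivity)]
  exact h4

theorem LFIN (hc : S_CON) (hq : S_LQLE) (hs : S_SUPn) (hk : S_KKI1) : S_LFIN := by
  intro d hd
  obtain ⟨C, hC0, hC⟩ := hq d hd
  refine ⟨C, hC0, ?_⟩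
  intro γ hγ2 hγ0 T f hT hsol
  obtain ⟨C2, hk2⟩ := hk d hd γ hγ2 hγ0
  obtain ⟨hS1, hS2, hS3⟩ := hs d T f (kk γ 1) (d + 7) C2 hT (kk_nonneg γ 1)
    (fun v => (hk2 v).1) (fun v => (hk2 v).2.1) hsol.nonneg hsol.cont hsol.periodic hsol.decay
  have hLam0 : ∀ t ∈ Ico 0 T, 0 ≤ Lam γ 1 f t := by
    intro t ht
    unfold Lam
    refine Real.iSup_nonneg fun q => integral_nonneg fun w => ?_
    exact mul_nonneg (hsol.nonneg t ht q.1 w) (kk_nonneg γ 1 q.2 w)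
  refine ⟨hS1, hLam0, ?_⟩
  intro N hN t ht x v
  have hN0 : 0 ≤ N := by
    have h1 := hsol.nonneg 0 ⟨le_rfl, hT⟩ 0 0
    have h2 := hN 0 0
    by_contra h
    have := mul_neg_of_neg_of_pos (not_le.mp h) (P_pos' (0 : E d))
    linarith
  have key := hc d T f (fun t x v => QL γ (f t x) v) (P d)
    (fun t => C * Lam γ 1 f t) N hT hN0 P_pos' (P_cont' d)
    hsol.cont hsol.periodic (decay_le T f hsol.nonneg hsol.decay) ?_
    (continuousOn_const.mul hS1) ?_ ?_ hN t ht x v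
  · rw [intervalIntegral.integral_const_mul] at key
    exact key
  · -- derivative
    intro t ht x v
    have h1 := (hsol.diff t ht x v).hasFDerivAt
    have h2 : HasDerivAt (fun τ : ℝ => ((t + τ, x + τ • v) : ℝ × E d)) (1, v) 0 := by
      have a1 : HasDerivAt (fun τ : ℝ => t + τ) 1 0 := (hasDerivAt_id (0 : ℝ)).const_add t
      have a2 : HasDerivAt (fun τ : ℝ => x + τ • v) v 0 := by
        have := ((hasDerivAt_id (0 : ℝ)).smul_const v).const_add x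
        rw [one_smul] at this
        exact this
      exact a1.prodMk a2
    have h3 := h1.comp_hasDerivAt_of_eq (0 : ℝ) h2 (by simp)
    rw [hsol.eqn t ht x v] at h3
    exact h3
  · -- nonnegativity
    intro t ht
    exact mul_nonneg hC0 (hLam0 t ht)
  · -- contact
    intro t ht x v A hA hfA hfe
    have htI : t ∈ Ico 0 T := ⟨ht.1.le, ht.2⟩
    have h1 := hC γ hγ2 hγ0 (f t x) (hsol.smooth t ht x) (hsol.nonneg t htI x) A hfA v hfe
    have h2 : ∫ w, f t x w * kk γ 1 v w ≤ Lam γ 1 f t := by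
      unfold Lam
      exact le_ciSup (hS2 t htI) (x, v)
    have h3 : 0 ≤ C * (A * P d v) := mul_nonneg hC0 (mul_nonneg hA.le (P_pos' v).le)
    calc QL γ (f t x) v ≤ C * (A * P d v) * ∫ w, f t x w * kk γ 1 v w := h1
      _ ≤ C * (A * P d v) * Lam γ 1 f t := mul_le_mul_of_nonneg_left h2 h3
      _ = (C * Lam γ 1 f t) * (A * P d v) := by ring

end Pool.Agent.H190.BZ
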